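import Pool.Agent.Q135.B5

/-!
The biased sequence game: Player 1 on `{0,1,2}`, Player 2 on `{0,1}`.
-/

namespace Pool.Agent.Results.MP_fa571f_co.PlayerOneSurvives

open Q135.B5

/-- The sequence `s` contains no square of a nonsingleton block. -/
def NoNonsingletonSquare (s : ℕ → Fin 3) : Prop :=
  ∀ k r : ℕ, 2 ≤ r → ¬ ∀ t < r, s (k + t) = s (k + r + t)

/-- The letters of Player 1. -/
def rho (x : ℕ) : Fin 3 := if x = 0 then 2 else if x = 1 then 0 else 1

/-- The word of Player 1. -/
def u (i : ℕ) : Fin 3 := rho (P i)

theorem rho_inj {x y : ℕ} (hx : x ≤ 2) (hy : y ≤ 2) (h : rho x = rho y) : x = y := by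
  interval_cases x <;> interval_cases y <;> first | rfl | (exact absurd h (by decide))

theorem u_sqfree (p : ℕ) (hp : 1 ≤ p) (i : ℕ) : ¬ ∀ t < p, u (i + t) = u (i + p + t) := by
  intro h
  apply P_sqfree p hp i
  intro t ht
  exact rho_inj (P_avoid _).1 (P_avoid _).1 (h t ht)

theorem u_no_three (i : ℕ) (h0 : u i ≠ 2) (h1 : u (i + 1) ≠ 2) (h2 : u (i + 2) ≠ 2) : False := by
  have d1 : u i ≠ u (i + 1) := by
    intro h
    apply u_sqfree 1 le_rfl i
    intro t ht
    have : t = 0 := by omega
    subst this
    exact h
  have d2 : u (i + 1) ≠ u (i + 2) := by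
    intro h
    apply u_sqfree 1 le_rfl (i + 1)
    intro t ht
    have : t = 0 := by omega
    subst this
    exact h
  obtain ⟨a0, b1, b2⟩ := P_avoid i
  have a1 := (P_avoid (i + 1)).1
  have a2 := (P_avoid (i + 2)).1
  unfold u at h0 h1 h2 d1 d2
  generalize P i = x at *
  generalize P (i + 1) = y at *
  generalize P (i + 2) = z at *
  interval_cases x <;> interval_cases y <;> interval_cases z <;> simp_all [rho]

/-- Player 1 has a strategy (a function of the history, that is of the list of all previous symbols)
such that, whatever symbols from `{0,1}` Player 2 plays, the resulting infinite sequence contains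
no square of a nonsingleton block.  Player 1 moves at the even positions `0, 2, 4, …`. -/
theorem result : ∃ σ : List (Fin 3) → Fin 3, ∀ s : ℕ → Fin 3,
    (∀ n, s (2 * n) = σ (List.ofFn (fun i : Fin (2 * n) => s i.val))) →
    (∀ n, s (2 * n + 1) = 0 ∨ s (2 * n + 1) = 1) → NoNonsingletonSquare s := by
  refine ⟨fun h => u (h.length / 2), ?_⟩
  intro s h1 h2
  have he : ∀ n, s (2 * n) = u n := by
    intro n
    rw [h1 n]
    simp
  have ho : ∀ n, s (2 * n + 1) ≠ 2 := by
    intro n hn
    rcases h2 n with h | h <;> rw [h] at hn <;> exact absurd hn (by decide)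
  intro k r hr hsq
  rcases Nat.even_or_odd' r with ⟨q, rfl | rfl⟩
  · -- even block length: a square in the word of Player 1
    obtain ⟨e, he1, he2⟩ : ∃ e, k ≤ 2 * e ∧ 2 * e ≤ k + 1 := by
      rcases Nat.even_or_odd' k with ⟨c, hc | hc⟩
      · exact ⟨c, by omega, by omega⟩
      · exact ⟨c + 1, by omega, by omega⟩
    apply u_sqfree q (by omega) e
    intro t ht
    have := hsq (2 * e - k + 2 * t) (by omega)
    rw [show k + (2 * e - k + 2 * t) = 2 * (e + t) by omega,
      show k + 2 * q + (2 * e - k + 2 * t) = 2 * (e + q + t) by omega, he, he] at this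
    exact this
  · -- odd block length: all letters are different from `2`
    have hall : ∀ j, k ≤ j → j < k + 2 * (2 * q + 1) → s j ≠ 2 := by
      intro j hj1 hj2 hj
      rcases Nat.even_or_odd' j with ⟨c, hc | hc⟩
      · by_cases hlt : j < k + (2 * q + 1)
        · have := hsq (j - k) (by omega)
          rw [show k + (j - k) = j by omega,
            show k + (2 * q + 1) + (j - k) = 2 * (c + q) + 1 by omega, hj] at this
          exact ho _ this.symm
        · have := hsq (j - (k + (2 * q + 1))) (by omega)
          rw [show k + (2 * q + 1) + (j - (k + (2 * q + 1))) = j by omega,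
            show k + (j - (k + (2 * q + 1))) = 2 * (c - q - 1) + 1 by omega, hj] at this
          exact ho _ this
      · rw [hc] at hj
        exact ho c hj
    obtain ⟨e, he1, he2⟩ : ∃ e, k ≤ 2 * e ∧ 2 * e ≤ k + 1 := by
      rcases Nat.even_or_odd' k with ⟨c, hc | hc⟩
      · exact ⟨c, by omega, by omega⟩
      · exact ⟨c + 1, by omega, by omega⟩
    apply u_no_three e
    · rw [← he]; exact hall _ (by omega) (by omega)
    · rw [← he]; exact hall _ (by omega) (by omega)
    · rw [← he]; exact hall _ (by omega) (by omega)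

end Pool.Agent.Results.MP_fa571f_co.PlayerOneSurvives
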